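import Pool.Agent.X251.BC.Main

set_option autoImplicit false

/-!
# The cost of affine signed permutations of type `B~`

Definitions used (from `Pool.Agent.X251.BC.Basic`), with `N = 2 n + 2`:
* `Aff n w`: the bijection `w` of `ℤ` satisfies `w (-i) = - w i` and `w (i + N) = w i + N`;
* `InB n w`: moreover `#{i > 0 : w i < 0}` is even;
* `IsTransp n i j t`: `t = ⟨(i j)⟩`;
* `Refl n`: the set `T_W` of the `⟨(i j)⟩`, `i ≠ j`, which belong to the group `W` of type `B~`;
* `tvd n w = ∑_{i = 1}^n |w i - i|`.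
-/

namespace Pool.Agent.Results.MP_0e82d3_co.CostFormula

open Pool.Agent.X251.BC

/-- `±[j]` -/
def pm (j : ℕ) : Set ℤ := {x | x ≠ 0 ∧ |x| ≤ j}

/-- `1 + #{good j}` -/
noncomputable def blC (n : ℕ) (w : Equiv.Perm ℤ) : ℕ :=
  1 + Set.ncard {j : ℕ | 1 ≤ j ∧ j < n ∧ Set.BijOn w (pm j) (pm j)}

/-- `1 + #{very good j}` -/
noncomputable def blB (n : ℕ) (w : Equiv.Perm ℤ) : ℕ :=
  1 + Set.ncard {j : ℕ | 1 ≤ j ∧ j < n ∧ Set.BijOn w (pm j) (pm j) ∧
    Even (Set.ncard {i : ℤ | 1 ≤ i ∧ i ≤ j ∧ w i < 0})}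

/-- the costs of the factorizations of `w` into reflections, a reflection `t` having the cost
`tvd t / 2` -/
def costs (n : ℕ) (w : Equiv.Perm ℤ) : Set ℚ :=
  {c | ∃ L : List (Equiv.Perm ℤ), (∀ t ∈ L, t ∈ Refl n) ∧ L.prod = w ∧
    (L.map fun t => (tvd n t : ℚ) / 2).sum = c}

lemma bij_iff {n : ℕ} {w : Equiv.Perm ℤ} (hw : Aff n w) (j : ℕ) :
    Set.BijOn w (pm j) (pm j) ↔ Good w j := by
  constructor
  · intro h x hx
    by_cases h0 : x = 0
    · rw [h0, hw.zero, abs_zero]; omega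
    · exact (h.mapsTo (show x ∈ pm j from ⟨h0, hx⟩)).2
  · intro h
    have hm : Set.MapsTo w (pm j) (pm j) := fun x hx => ⟨ne_zero hw hx.1, h x hx.2⟩
    have hfin : (pm j).Finite := (Set.finite_Icc (-(j : ℤ)) j).subset fun x hx => abs_le.mp hx.2
    exact (hfin.injOn_iff_bijOn_of_mapsTo hm).mp w.injective.injOn

lemma neg_eq (w : Equiv.Perm ℤ) (j : ℕ) :
    Set.ncard {i : ℤ | 1 ≤ i ∧ i ≤ j ∧ w i < 0} = neg w j := by
  rw [neg, ← Set.ncard_coe_finset]
  congr 1
  ext x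
  simp only [Set.mem_ofPred_eq, Finset.coe_filter, Finset.mem_Icc, and_assoc]

lemma card_J {n : ℕ} {w : Equiv.Perm ℤ} (hw : Aff n w) :
    blC n w = blB n w + (J n w).card := by
  rw [blC, blB, add_assoc, ← Set.ncard_coe_finset, ← Set.ncard_union_eq
    (hs := (Set.finite_Iio n).subset fun j hj => hj.2.1) (ht := (J n w).finite_toSet)]
  · congr 2
    ext j
    simp only [Set.mem_ofPred_eq, Set.mem_union, Finset.mem_coe, mem_J, bij_iff hw, neg_eq]
    tauto
  · rw [Set.disjoint_left]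
    intro j h1 h2
    simp only [Set.mem_ofPred_eq, Finset.mem_coe, mem_J, bij_iff hw, neg_eq] at h1 h2
    exact h2.2.2.2 h1.2.2.2

lemma half_sum (n : ℕ) (L : List (Equiv.Perm ℤ)) :
    (L.map fun t => (tvd n t : ℚ) / 2).sum = (((L.map (tvd n)).sum : ℤ) : ℚ) / 2 := by
  induction L with
  | nil => simp
  | cons t L ih =>
    rw [List.map_cons, List.sum_cons, ih, List.map_cons, List.sum_cons]
    push_cast
    ring

/-- For every affine signed permutation `w` of type `B~`, the minimal total cost of a factorization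
of `w` into reflections is `tvd w / 2 + bl^C w - bl^B w`. -/
theorem result (n : ℕ) (w : Equiv.Perm ℤ) (hw : InB n w) :
    IsLeast (costs n w) ((tvd n w : ℚ) / 2 + (blC n w : ℚ) - (blB n w : ℚ)) := by
  have hR : (tvd n w : ℚ) / 2 + (blC n w : ℚ) - (blB n w : ℚ) = ((R n w : ℤ) : ℚ) / 2 := by
    rw [card_J hw.1, R]
    push_cast
    ring
  rw [hR]
  constructor
  · obtain ⟨L, h1, h2, h3⟩ := upper hw
    have h4 := lower L h1
    rw [h2] at h4
    refine ⟨L, h1, h2, ?_⟩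
    rw [half_sum, le_antisymm h3 h4]
  · rintro c ⟨L, h1, h2, rfl⟩
    rw [half_sum, ← h2]
    have h4 : ((R n L.prod : ℤ) : ℚ) ≤ (((L.map (tvd n)).sum : ℤ) : ℚ) := by
      exact_mod_cast lower L h1
    linarith

end Pool.Agent.Results.MP_0e82d3_co.CostFormula
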